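import Pool.Agent.W248.RG.Stm

set_option autoImplicit false

namespace Pool.Agent.W381.RG

open Pool.Agent.W248.RG Finset

variable {e m h : ℕ} {r : Fin e → ZMod m} {B C : Finset (Fin e → ℕ)}

lemma res_add (u v : Fin e → ℕ) : res m r (u + v) = res m r u + res m r v := by
  unfold res
  rw [← sum_add_distrib]
  refine sum_congr rfl fun i _ => ?_
  rw [Pi.add_apply]
  push_cast
  ring

lemma res_sub {u w : Fin e → ℕ} (h : w ≤ u) : res m r (u - w) + res m r w = res m r u := by
  rw [← res_add, tsub_add_cancel_of_le h]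

lemma ei_le {u : Fin e → ℕ} {i : Fin e} (h : 0 < u i) : ei i ≤ u := by
  intro j
  unfold ei
  by_cases hj : j = i
  · subst hj
    rw [Pi.single_eq_same]
    exact h
  · rw [Pi.single_eq_of_ne hj]
    exact Nat.zero_le _

lemma le_sub_ei {u v : Fin e → ℕ} {i : Fin e} (h : v ≤ u) (hi : v i < u i) : v ≤ u - ei i := by
  intro j
  rw [Pi.sub_apply]
  unfold ei
  by_cases hj : j = i
  · subst hj
    rw [Pi.single_eq_same]
    exact Nat.le_sub_one_of_lt hi
  · rw [Pi.single_eq_of_ne hj]
    exact h j

lemma antichain (hs : Stair m r B C) {u v : Fin e → ℕ} (hu : u ∈ C) (hv : v ∈ C) (h : u ≤ v) :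
    u = v := by
  by_contra hne
  obtain ⟨i, hi⟩ : ∃ i, u i < v i := by
    by_contra hc
    push Not at hc
    exact hne (le_antisymm h hc)
  have h1 := ((hs.corner v).1 hv).2 i (by omega)
  exact ((hs.corner u).1 hu).1 (hs.down _ h1 _ (le_sub_ei h hi))

lemma card_B (hs : Stair m r B C) (hm : 0 < m) : B.card ≤ m := by
  have : NeZero m := ⟨hm.ne'⟩
  have h1 : B.card ≤ (univ : Finset (ZMod m)).card :=
    card_le_card_of_injOn (res m r) (fun u _ => mem_coe.2 (mem_univ _))
      (fun u hu v hv huv => hs.inj u hu v hv huv)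
  rwa [card_univ, ZMod.card] at h1

lemma full_res (hs : Stair m r B C) {u : Fin e → ℕ} (hu : u ∈ C) (hpos : ∀ i, 0 < u i) :
    res m r u = 0 := by
  obtain ⟨b, hb, hbu⟩ := hs.surj u
  have hb0 : b = 0 := by
    by_contra hc
    obtain ⟨i, hi⟩ : ∃ i, 0 < b i := by
      by_contra hc'
      push Not at hc'
      exact hc (funext fun i => Nat.le_zero.1 (hc' i))
    have h1 := ((hs.corner u).1 hu).2 i (hpos i)
    have h2 : b - ei i ∈ B := hs.down b hb _ tsub_le_self
    have h3 : res m r (u - ei i) = res m r (b - ei i) := by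
      have e1 := res_sub (m := m) (r := r) (ei_le (hpos i))
      have e2 := res_sub (m := m) (r := r) (ei_le hi)
      rw [← hbu, ← e2] at e1
      exact add_right_cancel e1
    have h4 := hs.inj _ h1 _ h2 h3
    have h5 : u = b := by
      have := congrArg (fun w => w + ei i) h4
      rwa [tsub_add_cancel_of_le (ei_le (hpos i)), tsub_add_cancel_of_le (ei_le hi)] at this
    exact ((hs.corner u).1 hu).1 (h5 ▸ hb)
  rw [← hbu, hb0]
  unfold res
  refine sum_eq_zero fun i _ => ?_
  rw [Pi.zero_apply]
  push_cast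
  ring

lemma full_unique (hs : Stair m r B C) (he : 2 ≤ e) {u u' : Fin e → ℕ} (hu : u ∈ C)
    (hpos : ∀ i, 0 < u i) (hu' : u' ∈ C) (hpos' : ∀ i, 0 < u' i) : u = u' := by
  have key : ∀ u u' : Fin e → ℕ, u ∈ C → (∀ i, 0 < u i) → (∀ i, 0 < u' i) → u - u ⊓ u' ∈ B := by
    intro u u' hu hpos hpos'
    have h1 := ((hs.corner u).1 hu).2 ⟨0, by omega⟩ (hpos _)
    refine hs.down _ h1 _ (le_sub_ei tsub_le_self ?_)
    rw [Pi.sub_apply, Pi.inf_apply]
    have h2 := hpos ⟨0, by omega⟩
    have h3 := hpos' ⟨0, by omega⟩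
    have h4 : 0 < u ⟨0, by omega⟩ ⊓ u' ⟨0, by omega⟩ := lt_inf_iff.2 ⟨h2, h3⟩
    omega
  have h1 := key u u' hu hpos hpos'
  have h2 := key u' u hu' hpos' hpos
  rw [inf_comm] at h2
  have e1 := res_sub (m := m) (r := r) (inf_le_left : u ⊓ u' ≤ u)
  have e2 := res_sub (m := m) (r := r) (inf_le_right : u ⊓ u' ≤ u')
  rw [full_res hs hu hpos, ← full_res hs hu' hpos', ← e2] at e1
  have h3 := hs.inj _ h1 _ h2 (add_right_cancel e1)
  have := congrArg (fun w => w + u ⊓ u') h3
  rwa [tsub_add_cancel_of_le (inf_le_left : u ⊓ u' ≤ u),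
    tsub_add_cancel_of_le (inf_le_right : u ⊓ u' ≤ u')] at this

open Classical in
lemma card_full (hs : Stair m r B C) (he : 2 ≤ e) : (C.filter fun u => ∀ i, 0 < u i).card ≤ 1 := by
  rw [card_le_one]
  intro u hu v hv
  rw [mem_filter] at hu hv
  exact full_unique hs he hu.1 hu.2 hv.1 hv.2

open Classical in
lemma card_T (hs : Stair m r B C) (hm : 0 < m) (T : Finset (Fin e)) :
    ((C.filter fun u => ∃ i, h < u i).filter fun u => (univ.filter fun i => u i ≤ h) = T).card * h ≤
      m := by
  refine le_trans ?_ (card_B hs hm)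
  have h0 : ((C.filter fun u => ∃ i, h < u i).filter
      fun u => (univ.filter fun i => u i ≤ h) = T).card * h =
      (((C.filter fun u => ∃ i, h < u i).filter
        fun u => (univ.filter fun i => u i ≤ h) = T) ×ˢ Icc 1 h).card := by
    rw [card_product, Nat.card_Icc, Nat.add_sub_cancel]
  rw [h0]
  have hmem : ∀ u : Fin e → ℕ, (univ.filter fun i => u i ≤ h) = T → ∀ i, (i ∈ T ↔ u i ≤ h) := by
    rintro u rfl i
    rw [mem_filter]
    exact ⟨fun h => h.2, fun h => ⟨mem_univ _, h⟩⟩
  refine card_le_card_of_injOn (fun p : (Fin e → ℕ) × ℕ =>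
    (fun i => if i ∈ T then p.1 i else p.1 i - p.2 : Fin e → ℕ)) ?_ ?_
  · rintro ⟨u, t⟩ hp
    rw [mem_coe, mem_product, mem_filter, mem_filter, mem_Icc] at hp
    obtain ⟨⟨⟨hu, i, hi⟩, hT⟩, ht1, ht2⟩ := hp
    simp only at hu hi hT ht1 ht2
    have hiT : i ∉ T := by
      rw [hmem u hT i]
      omega
    have h1 := ((hs.corner u).1 hu).2 i (by omega)
    refine mem_coe.2 (hs.down _ h1 _ (le_sub_ei ?_ ?_))
    · intro j
      dsimp only
      split_ifs
      · exact le_rfl
      · exact Nat.sub_le _ _
    · dsimp only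
      rw [if_neg hiT]
      omega
  · rintro ⟨u, t⟩ hp ⟨u', t'⟩ hp' heq
    rw [mem_coe, mem_product, mem_filter, mem_filter, mem_Icc] at hp hp'
    obtain ⟨⟨⟨hu, i, hi⟩, hT⟩, ht1, ht2⟩ := hp
    obtain ⟨⟨⟨hu', i', hi'⟩, hT'⟩, ht1', ht2'⟩ := hp'
    simp only at hu hi hT ht1 ht2 hu' hi' hT' ht1' ht2'
    have hj : ∀ j, (if j ∈ T then u j else u j - t) = (if j ∈ T then u' j else u' j - t') :=
      fun j => congrFun heq j
    have hjT : ∀ j, j ∈ T → u j = u' j := by
      intro j hjT
      have := hj j
      rwa [if_pos hjT, if_pos hjT] at this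
    have hjN : ∀ j, j ∉ T → u j - t = u' j - t' ∧ h < u j ∧ h < u' j := by
      intro j hjT
      have h1 := hj j
      rw [if_neg hjT, if_neg hjT] at h1
      have h2 := hmem u hT j
      have h3 := hmem u' hT' j
      refine ⟨h1, ?_, ?_⟩
      · by_contra hc
        exact hjT (h2.2 (by omega))
      · by_contra hc
        exact hjT (h3.2 (by omega))
    have huu : u = u' := by
      rcases le_total t t' with ht | ht
      · refine antichain hs hu hu' fun j => ?_
        by_cases hjT' : j ∈ T
        · exact (hjT j hjT').le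
        · have := hjN j hjT'
          show u j ≤ u' j
          omega
      · refine (antichain hs hu' hu fun j => ?_).symm
        by_cases hjT' : j ∈ T
        · exact (hjT j hjT').ge
        · have := hjN j hjT'
          show u' j ≤ u j
          omega
    subst huu
    have hiT : i ∉ T := by
      rw [hmem u hT i]
      omega
    have h3 := hjN i hiT
    have htt : t = t' := by omega
    rw [htt]

open Classical in
lemma card_two (hs : Stair m r B C) (hm : 0 < m) :
    (C.filter fun u => ∃ i, h < u i).card * h ≤ 2 ^ e * m := by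
  have h1 := card_eq_sum_card_fiberwise (f := fun u : Fin e → ℕ => univ.filter fun i => u i ≤ h)
    (s := C.filter fun u => ∃ i, h < u i) (t := (univ : Finset (Finset (Fin e))))
    (fun u _ => mem_coe.2 (mem_univ _))
  rw [h1, sum_mul]
  have h2 : ∀ T ∈ (univ : Finset (Finset (Fin e))),
      ((C.filter fun u => ∃ i, h < u i).filter fun u => (univ.filter fun i => u i ≤ h) = T).card *
        h ≤ m := fun T _ => card_T hs hm T
  refine (sum_le_sum h2).trans (le_of_eq ?_)
  rw [sum_const, card_univ, Fintype.card_finset, Fintype.card_fin, smul_eq_mul]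

open Classical in
lemma card_three_i (hs : Stair m r B C) (he : 2 ≤ e) (i : Fin e) :
    (C.filter fun u => (∀ k, u k ≤ h) ∧ u i = 0).card ≤ (h + 1) ^ (e - 2) := by
  obtain ⟨j, hj⟩ : ∃ j : Fin e, j ≠ i := by
    have : Nontrivial (Fin e) := Fin.nontrivial_iff_two_le.2 he
    exact exists_ne i
  have hcard : (Fintype.piFinset (fun k : Fin e => if k = i ∨ k = j then ({0} : Finset ℕ)
      else range (h + 1))).card = (h + 1) ^ (e - 2) := by
    rw [Fintype.card_piFinset]
    have h1 : ∀ k : Fin e, (if k = i ∨ k = j then ({0} : Finset ℕ) else range (h + 1)).card =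
        if k = i ∨ k = j then 1 else (h + 1) := by
      intro k
      split_ifs
      · exact card_singleton 0
      · exact card_range _
    rw [prod_congr rfl fun k _ => h1 k, prod_ite, prod_const_one, one_mul, prod_const]
    congr 1
    have h2 : (univ.filter fun k : Fin e => ¬ (k = i ∨ k = j)) = univ \ {i, j} := by
      ext k
      simp
    rw [h2, card_sdiff_of_subset (subset_univ _), card_univ, Fintype.card_fin,
      card_pair hj.symm]
  rw [← hcard]
  refine card_le_card_of_injOn (fun u => Function.update u j 0) ?_ ?_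
  · intro u hu
    rw [mem_coe, mem_filter] at hu
    rw [mem_coe, Fintype.mem_piFinset]
    intro k
    by_cases hk : k = i ∨ k = j
    · rw [if_pos hk, mem_singleton]
      rcases hk with rfl | rfl
      · show Function.update u j 0 k = 0
        rw [Function.update_of_ne hj.symm]
        exact hu.2.2
      · exact Function.update_self _ _ _
    · rw [if_neg hk, mem_range]
      push Not at hk
      show Function.update u j 0 k < h + 1
      rw [Function.update_of_ne hk.2]
      have := hu.2.1 k
      omega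
  · intro u hu v hv huv
    rw [mem_coe, mem_filter] at hu hv
    have h1 : ∀ k, k ≠ j → u k = v k := by
      intro k hk
      have := congrFun huv k
      simp only at this
      rwa [Function.update_of_ne hk, Function.update_of_ne hk] at this
    rcases le_total (u j) (v j) with h2 | h2
    · refine antichain hs hu.1 hv.1 fun k => ?_
      by_cases hk : k = j
      · subst hk
        exact h2
      · exact (h1 k hk).le
    · refine (antichain hs hv.1 hu.1 fun k => ?_).symm
      by_cases hk : k = j
      · subst hk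
        exact h2
      · exact (h1 k hk).ge

theorem main : S_COMB := by
  classical
  intro e m h r B C he hm hh hs
  have hsub : C ⊆ ((C.filter fun u => ∀ i, 0 < u i) ∪ (C.filter fun u => ∃ i, h < u i)) ∪
      (univ : Finset (Fin e)).biUnion fun i => C.filter fun u => (∀ k, u k ≤ h) ∧ u i = 0 := by
    intro u hu
    rw [mem_union, mem_union, mem_filter, mem_filter, mem_biUnion]
    by_cases h1 : ∀ i, 0 < u i
    · exact Or.inl (Or.inl ⟨hu, h1⟩)
    · by_cases h2 : ∃ i, h < u i
      · exact Or.inl (Or.inr ⟨hu, h2⟩)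
      · push Not at h1 h2
        obtain ⟨i, hi⟩ := h1
        exact Or.inr ⟨i, mem_univ _, mem_filter.2 ⟨hu, h2, Nat.le_zero.1 hi⟩⟩
  have h1 := card_full hs he
  have h2 := card_two (h := h) hs hm
  have h3 : ((univ : Finset (Fin e)).biUnion fun i =>
      C.filter fun u => (∀ k, u k ≤ h) ∧ u i = 0).card ≤ e * (h + 1) ^ (e - 2) := by
    refine card_biUnion_le.trans ?_
    refine (sum_le_sum fun i _ => card_three_i (h := h) hs he i).trans (le_of_eq ?_)
    rw [sum_const, card_univ, Fintype.card_fin, smul_eq_mul]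
  have h4 := (card_le_card hsub).trans ((card_union_le _ _).trans
    (Nat.add_le_add_right (card_union_le _ _) _))
  calc C.card * h ≤ (((C.filter fun u => ∀ i, 0 < u i).card +
        (C.filter fun u => ∃ i, h < u i).card) + ((univ : Finset (Fin e)).biUnion fun i =>
          C.filter fun u => (∀ k, u k ≤ h) ∧ u i = 0).card) * h := Nat.mul_le_mul_right _ h4
    _ = (C.filter fun u => ∀ i, 0 < u i).card * h + (C.filter fun u => ∃ i, h < u i).card * h +
        h * ((univ : Finset (Fin e)).biUnion fun i =>
          C.filter fun u => (∀ k, u k ≤ h) ∧ u i = 0).card := by ring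
    _ ≤ 1 * h + 2 ^ e * m + h * (e * (h + 1) ^ (e - 2)) :=
        Nat.add_le_add (Nat.add_le_add (Nat.mul_le_mul_right _ h1) h2) (Nat.mul_le_mul_left _ h3)
    _ = h + 2 ^ e * m + h * (e * (h + 1) ^ (e - 2)) := by rw [one_mul]

end Pool.Agent.W381.RG
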